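import Mathlib

/-! Part C2 of the swarm DT: choice of `m` coefficients with a nonzero minor. -/

set_option autoImplicit false
set_option linter.unusedSectionVars false

open Polynomial Finset DirectSum

namespace Pool.Agent.Helper31.DT

variable {R : Type} [CommRing R] [Algebra ℂ R] {𝒜 : ℕ → Submodule ℂ R} [GradedAlgebra 𝒜]
  {k : Type} [Field k] [Algebra ℂ k]

/-- C2. Choice of `m` coefficients with a nonzero minor. -/
theorem exists_coord {m : ℕ} {V₁ V₂ : Fin m → R →ₗ[ℂ] k[X]}
    (hind : ∀ c : Fin m → k, (∀ r, ∑ i, Polynomial.C (c i) * V₁ i r = 0) →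
        (∀ r, ∑ i, Polynomial.C (c i) * V₂ i r = 0) → c = 0) :
    ∃ z : Fin m → Bool × R × ℕ, (∀ i, ∃ d, (z i).2.1 ∈ 𝒜 d) ∧
      (Matrix.of fun i l => ((bif (z i).1 then V₁ l (z i).2.1 else V₂ l (z i).2.1).coeff
        (z i).2.2)).det ≠ 0 := by
  classical
  let row : Bool × R × ℕ → (Fin m → k) := fun z l =>
    (bif z.1 then V₁ l z.2.1 else V₂ l z.2.1).coeff z.2.2
  let S : Set (Fin m → k) := {v | ∃ z : Bool × R × ℕ, (∃ d, z.2.1 ∈ 𝒜 d) ∧ row z = v}
  have hspan : Submodule.span k S = ⊤ := by
    by_contra hne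
    obtain ⟨φ, hφ0, hφ⟩ := Submodule.exists_le_ker_of_lt_top _ (lt_top_iff_ne_top.2 hne)
    have hφc : ∀ v : Fin m → k, φ v = ∑ l, φ (Pi.single l 1) * v l := fun v => by
      conv_lhs => rw [pi_eq_sum_univ' v]
      rw [map_sum]
      refine Finset.sum_congr rfl fun l _ => ?_
      rw [map_smul, smul_eq_mul, mul_comm]
    have hS : ∀ z : Bool × R × ℕ, (∃ d, z.2.1 ∈ 𝒜 d) → ∑ l, φ (Pi.single l 1) * row z l = 0 :=
      fun z hz => by
        rw [← hφc]
        exact hφ (Submodule.subset_span ⟨z, hz, rfl⟩)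
    have hV : ∀ (b : Bool) (r : R), ∑ l, Polynomial.C (φ (Pi.single l 1)) *
        (bif b then V₁ l r else V₂ l r) = 0 := by
      intro b r
      induction r using DirectSum.Decomposition.inductionOn 𝒜 with
      | zero => cases b <;> simp
      | @homogeneous d a =>
        ext j
        rw [Polynomial.finsetSum_coeff]
        simp only [Polynomial.coeff_C_mul, Polynomial.coeff_zero]
        exact hS (b, (a : R), j) ⟨d, a.2⟩
      | add x y hx hy =>
        have : ∑ l, Polynomial.C (φ (Pi.single l 1)) * (bif b then V₁ l (x + y) else V₂ l (x + y)) =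
            ∑ l, Polynomial.C (φ (Pi.single l 1)) * (bif b then V₁ l x else V₂ l x) +
            ∑ l, Polynomial.C (φ (Pi.single l 1)) * (bif b then V₁ l y else V₂ l y) := by
          rw [← Finset.sum_add_distrib]
          refine Finset.sum_congr rfl fun l _ => ?_
          cases b <;> simp [mul_add]
        rw [this, hx, hy, add_zero]
    have hc := hind (fun l => φ (Pi.single l 1)) (fun r => hV true r) (fun r => hV false r)
    apply hφ0
    ext v
    have : φ (Pi.single v 1) = 0 := congrFun hc v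
    simpa using this
  obtain ⟨g, hgS, -, hgli⟩ := Submodule.exists_fun_fin_finrank_span_eq k S
  have hm : Module.finrank k (Submodule.span k S) = m := by
    rw [hspan, finrank_top, Module.finrank_fin_fun]
  have hg : ∀ i : Fin m, ∃ z : Bool × R × ℕ, (∃ d, z.2.1 ∈ 𝒜 d) ∧ row z = g (Fin.cast hm.symm i) :=
    fun i => hgS _
  choose z hz hrow using hg
  refine ⟨z, hz, ?_⟩
  have hli : LinearIndependent k fun i : Fin m => row (z i) := by
    have h1 : (fun i : Fin m => row (z i)) = g ∘ Fin.cast hm.symm := funext fun i => hrow i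
    rw [h1]
    exact hgli.comp _ (Fin.cast_injective _)
  have h2 : IsUnit (Matrix.of fun i l => row (z i) l) :=
    Matrix.linearIndependent_rows_iff_isUnit.1 hli
  exact ((Matrix.isUnit_iff_isUnit_det _).1 h2).ne_zero

end Pool.Agent.Helper31.DT
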